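import Pool.Agent.R313.CX.Z

set_option autoImplicit false

/-!
# MP_fa2474_nt: shifted moments with complex powers near the critical line

For complex `γ` with positive real part and an integer `m` put `pw γ m z = |z|^γ (z/|z|)^m`, that is, the single valued
power `z^α (conj z)^β` with `α = (γ + m)/2`, `β = (γ - m)/2`. Let `δ(T) → 0` with `δ(T) log T → ∞`, and let
`∑ γ_j = 2k`, `∑ m_j = 0`.

* For `0 < k ≤ 2` and all points `w_1, ..., w_n` of the half plane `Re w > 0`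
  `(2δ)^(k²) (1/T) ∫_0^T ∏_j pw γ_j m_j (ζ(1/2 + it + δ w_j)) dt → a(k) ∏_{i,j} ((w_i + conj w_j)/2)^(-α_i β_j)`.
* For all real `k > 0` in a given countable set and shifts `a_j` in a given countable set the same asymptotics with
  `w_j = 1 + i a_j` holds off exceptional sets `E(T)` consisting of points with a large value of zeta and of measure
  `o(δ^(4+4c) T)`, whenever `k ≤ 2` or `k ≥ 2 + 2c`.
-/

open Filter Topology MeasureTheory ProbabilityTheory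

namespace Pool.Agent.Results.MP_fa2474_nt.ComplexPowers

/-- the arithmetic factor of the moment conjecture for `|ζ|^(2k)` -/
noncomputable def ak (k : ℝ) : ℝ :=
  ∏' p : Nat.Primes, ((1 - 1 / (p : ℝ)) ^ (k ^ 2) *
    ∑' m : ℕ, (Real.Gamma (k + m) / (Real.Gamma k * (m.factorial : ℝ))) ^ 2 / (p : ℝ) ^ m)

/-- the single valued complex power `|z|^γ (z/|z|)^m` -/
noncomputable def pw (γ : ℂ) (m : ℤ) (z : ℂ) : ℂ := ((‖z‖ : ℝ) : ℂ) ^ γ * (z / ((‖z‖ : ℝ) : ℂ)) ^ m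

/-- the constant: `∏_{i,j} ((w_i + conj w_j)/2)^(-α_i β_j)` with `α = (γ + m)/2`, `β = (γ - m)/2`, principal powers -/
noncomputable def const {n : ℕ} (γ : Fin n → ℂ) (m : Fin n → ℤ) (w : Fin n → ℂ) : ℂ :=
  ∏ i, ∏ j, ((w i + (starRingEnd ℂ) (w j)) / 2) ^ (-((γ i + m i) * (γ j - m j) / 4))

theorem result (δ : ℝ → ℝ) (hδ : Tendsto δ atTop (𝓝 0)) (hδL : Tendsto (fun T : ℝ => δ T * Real.log T) atTop atTop) :
    -- orders at most four: arbitrary points of the half plane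
    (∀ k : ℝ, 0 < k → k ≤ 2 → 0 < ak k ∧ ∀ (n : ℕ) (w : Fin n → ℂ) (γ : Fin n → ℂ) (m : Fin n → ℤ),
      (∀ j, 0 < (w j).re) → (∀ j, 0 < (γ j).re) → ∑ j, γ j = 2 * k → ∑ j, m j = 0 →
      Tendsto (fun T : ℝ => (((2 * δ T) ^ (k ^ 2) / T : ℝ) : ℂ) *
        ∫ t in Set.Icc 0 T, ∏ j, pw (γ j) (m j) (riemannZeta (1 / 2 + t * Complex.I + δ T * w j))) atTop
        (𝓝 ((ak k : ℂ) * const γ m w))) ∧
    -- all orders: points on one line, off small sets of large values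
    ∀ c : ℝ, 0 ≤ c → ∀ S B : Set ℝ, S.Countable → B.Countable → (∀ k ∈ B, 0 < k) →
      ∃ E : ℝ → Set ℝ, (∀ T, MeasurableSet (E T) ∧ ∀ t ∈ E T, 0 ≤ t ∧ t ≤ T ∧
          ∃ a ∈ insert 0 S, (δ T) ^ (-(2 + c)) < ‖riemannZeta (1 / 2 + δ T + ((t + a * δ T : ℝ) : ℂ) * Complex.I)‖) ∧
        Tendsto (fun T => (volume (E T)).toReal / (T * (δ T) ^ (4 + 4 * c))) atTop (𝓝 0) ∧
        ∀ k ∈ B, (k ≤ 2 ∨ 2 + 2 * c ≤ k) → 0 < ak k ∧ ∀ (n : ℕ) (a : Fin n → ℝ) (γ : Fin n → ℂ) (m : Fin n → ℤ),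
          (∀ j, a j ∈ S) → (∀ j, 0 < (γ j).re) → ∑ j, γ j = 2 * k → ∑ j, m j = 0 →
          Tendsto (fun T : ℝ => (((2 * δ T) ^ (k ^ 2) / T : ℝ) : ℂ) * ∫ t in Set.Icc 0 T \ E T,
            ∏ j, pw (γ j) (m j) (riemannZeta (1 / 2 + δ T + ((t + a j * δ T : ℝ) : ℂ) * Complex.I))) atTop
            (𝓝 ((ak k : ℂ) * const γ m (fun j => 1 + (a j : ℂ) * Complex.I))) := by
  have e1 : ∀ k : ℝ, 0 < k → ∀ m : ℕ, Real.Gamma (k + m) / (Real.Gamma k * (m.factorial : ℝ)) = Pool.Agent.H306R2.lc k m := by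
    intro k hk m
    have hG : Real.Gamma k ≠ 0 := (Real.Gamma_pos_of_pos hk).ne'
    induction m with
    | zero =>
      unfold Pool.Agent.H306R2.lc
      simp [hG]
    | succ m ih =>
      have h1 : Pool.Agent.H306R2.lc k (m + 1) = Pool.Agent.H306R2.lc k m * ((k + m) / ((m : ℝ) + 1)) := by
        unfold Pool.Agent.H306R2.lc
        rw [Finset.prod_range_succ]
      have hkm : k + (m : ℝ) ≠ 0 := by positivity
      have h2 : Real.Gamma (k + ((m + 1 : ℕ) : ℝ)) = (k + m) * Real.Gamma (k + m) := by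
        rw [← Real.Gamma_add_one hkm]
        congr 1
        push_cast
        ring
      have hf : (m.factorial : ℝ) ≠ 0 := by positivity
      rw [h1, ← ih, h2, Nat.factorial_succ]
      push_cast
      field_simp
  have e3 : ∀ k : ℝ, 0 < k → ak k = Pool.Agent.H306R2.aF k := by
    intro k hk
    unfold ak Pool.Agent.H306R2.aF
    refine tprod_congr fun p => ?_
    simp_rw [e1 k hk, one_div, inv_pow, div_eq_mul_inv]
  refine ⟨fun k hk hk2 => ?_, fun c hc S B hS hB hB0 => ?_⟩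
  · rw [e3 k hk]
    exact ⟨Pool.Agent.H306R2.aF_pos hk, fun n w γ m hw hγ hs hm => Pool.Agent.R313.CX.cpow_full hδ hδL hk hk2 w hw hγ hs hm⟩
  · obtain ⟨E, hE, hvol, hm⟩ := Pool.Agent.R313.CX.cpow_off hδ hδL hc hS hB hB0
    refine ⟨E, fun T => ⟨(hE T).1, fun t ht => ⟨((hE T).2.1 ht).1, ((hE T).2.1 ht).2, (hE T).2.2 t ht⟩⟩, hvol, fun k hk hcase => ?_⟩
    rw [e3 _ (hB0 k hk)]
    exact ⟨Pool.Agent.H306R2.aF_pos (hB0 k hk), fun n a γ m ha hγ hs hms => hm k hk hcase n a ha γ m hγ hs hms⟩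

end Pool.Agent.Results.MP_fa2474_nt.ComplexPowers
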