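import Pool.Agent.R747.SH.G

set_option autoImplicit false

/-!
# Shifted moments of zeta: rearrangements of the shifts and a pointwise bound

Let `γ = (α, β)` consist of `2k` different real numbers, `a ≥ 0`, and suppose that the asymptotic
formula of Conrey, Farmer, Keating, Rubinstein and Snaith holds with a power saving,
`∫_0^T (Z_{α, β}(t) - Q_k(t; α, β)) dt = O(T^(a + ε))` for every `ε > 0`.  Then

* the same formula, with the same exponent, holds for all `(2k)!` rearrangements of the `2k` numbers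
  (so the truth of Q1 and the exponent depend only on the set of the `2k` shifts and not on their
  distribution over `α` and `β`);
* `∏_i |ζ(1/2 + i(t + γ_i))| = O(t^(a + ε))` pointwise, although the integrand is not positive.

Proof.  `Z_γ - Q_γ = G_γ(π) (Z_{π(γ)} - Q_{π(γ)})`, where `|G_γ(π)| = 1` on the line and the derivative
of `G_γ(π)` is `O(1/t)`: partial summation.  For the second part one takes the function
`∫_0^1 (1 - u) Z(s + iu) du`, which is `O(t^(a + ε))` on the line, interpolates near the line by the three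
lines theorem and uses Cauchy's estimate for the derivative.
-/

namespace Pool.Agent.Results.MP_fa2474_nt.RearrangedShifts

open Complex MeasureTheory Filter

noncomputable section

variable {k : ℕ}

/-- The divisor function `τ_l(n)`: the sum over `d_1 d_2 ⋯ d_k = n` of `∏ j, d_j ^ l_j`. -/
def tau (l : Fin k → ℂ) (n : ℕ) : ℂ :=
  ∑ d ∈ Nat.finMulAntidiag k n, ∏ j, (d j : ℂ) ^ (l j)

/-- The Euler factor of `F(s; a, b)` at the prime `p`. -/
def localFactor (s : ℂ) (a b : Fin k → ℝ) (p : ℕ) : ℂ :=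
  (∏ j, ∏ l, (1 - (p : ℂ) ^ (-(2 * s + I * a j - I * b l)))) *
    ∑' m : ℕ, tau (fun j => I * b j) (p ^ m) * tau (fun j => -(I * a j)) (p ^ m) *
      (p : ℂ) ^ (-(2 * m * s))

/-- The arithmetic factor `F(s; a, b)`, an Euler product. -/
def arithF (s : ℂ) (a b : Fin k → ℝ) : ℂ := ∏' p : Nat.Primes, localFactor s a b p

/-- `ζ_{(a, b)}(s)`, through `F(s; a, b)` and the product of `k ^ 2` zeta functions. -/
def zetaAB (s : ℂ) (a b : Fin k → ℝ) : ℂ :=
  arithF s a b * ∏ j, ∏ l, riemannZeta (2 * s + I * a j - I * b l)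

/-- The factor `χ` of the functional equation `ζ(s) = χ(s) ζ(1 - s)`. -/
def chi (s : ℂ) : ℂ := (Real.pi : ℂ) ^ (s - 1 / 2) * Gamma ((1 - s) / 2) / Gamma (s / 2)

/-- `Z_{α, β}(t)`, where `γ = (α, β)` is indexed by `Fin k ⊕ Fin k`. -/
def Z (γ : Fin k ⊕ Fin k → ℝ) (t : ℝ) : ℂ :=
  ∏ j : Fin k, riemannZeta (1 / 2 + I * (t + γ (Sum.inl j))) *
    riemannZeta (1 / 2 - I * (t + γ (Sum.inr j)))

/-- `G_γ(π)`, where `π(γ)` has the coordinates `γ (π i)`. -/
def G (γ : Fin k ⊕ Fin k → ℝ) (t : ℝ) (π : Equiv.Perm (Fin k ⊕ Fin k)) : ℂ :=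
  (∏ j : Fin k, if (π (Sum.inl j)).isRight then chi (1 / 2 - I * t - I * γ (π (Sum.inl j))) else 1) *
  ∏ j : Fin k, if (π (Sum.inr j)).isLeft then chi (1 / 2 + I * t + I * γ (π (Sum.inr j))) else 1

/-- `Q_k(t; α, β)`: the summand depends only on the class of `π` in `S_{2k} / (S_k × S_k)`, so the
sum over the classes is the sum over all `π`, divided by `(k!) ^ 2`. -/
def Q (γ : Fin k ⊕ Fin k → ℝ) (t : ℝ) : ℂ :=
  ((Nat.factorial k : ℂ) ^ 2)⁻¹ * ∑ π : Equiv.Perm (Fin k ⊕ Fin k),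
    G γ t π * zetaAB (1 / 2) (fun j => γ (π (Sum.inl j))) (fun j => γ (π (Sum.inr j)))

/-- The asymptotic formula with exponent `a`: the integral of `Z - Q` over `[0, T]` is
`O(T^(a + ε))` for every `ε > 0`. -/
def PowerSaving (γ : Fin k ⊕ Fin k → ℝ) (a : ℝ) : Prop :=
  ∀ ε : ℝ, 0 < ε → ∃ C : ℝ, ∀ T : ℝ, 1 ≤ T → ‖∫ t in (0:ℝ)..T, (Z γ t - Q γ t)‖ ≤ C * T ^ (a + ε)

open Pool.Agent.TH612.CF in
lemma zetaAB_eq (a b : Fin k → ℝ) :
    zetaAB (1 / 2) a b = zab (fun j => (a j : ℂ)) (fun j => (b j : ℂ)) := by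
  unfold zetaAB zab arithF FH
  congr 1
  · refine tprod_congr fun p => ?_
    unfold localFactor lh lt
    congr 1
    · refine Finset.prod_congr rfl fun j _ => Finset.prod_congr rfl fun l _ => ?_
      congr 2
      ring
    · refine tsum_congr fun m => ?_
      have hp : ((p : ℕ) : ℂ) ≠ 0 := by exact_mod_cast p.2.ne_zero
      have e : ((p : ℕ) : ℂ) ^ (-(2 * (m : ℂ) * (1 / 2))) = (((p : ℕ) : ℂ) ^ m)⁻¹ := by
        rw [← Complex.cpow_natCast, ← Complex.cpow_neg]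
        congr 1; ring
      rw [e]
      rfl
  · refine Finset.prod_congr rfl fun j _ => Finset.prod_congr rfl fun l _ => ?_
    congr 1
    ring

open Pool.Agent.TH612.CF in
lemma Q_eq (γ : Fin k ⊕ Fin k → ℝ) (t : ℝ) :
    Q γ t = ((Nat.factorial k : ℂ) ^ 2)⁻¹ * Qs t (fun i => (γ i : ℂ)) := by
  unfold Q Qs Rt
  congr 1
  refine Finset.sum_congr rfl fun π _ => ?_
  rw [zetaAB_eq]
  rfl

lemma D_eq (γ : Fin k ⊕ Fin k → ℝ) (t : ℝ) : Z γ t - Q γ t = Pool.Agent.R747.SH.D γ t := by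
  rw [Q_eq]
  rfl

lemma one_way {γ : Fin k ⊕ Fin k → ℝ} {a : ℝ} (ha : 0 ≤ a) (π : Equiv.Perm (Fin k ⊕ Fin k))
    (H : PowerSaving (fun i => γ (π i)) a) : PowerSaving γ a := by
  intro ε hε
  obtain ⟨C, hC⟩ := H ε hε
  simp only [D_eq] at hC ⊢
  exact Pool.Agent.R747.SH.rearr γ π (by linarith) hC

/-- Rearrangements of `2k` different shifts, and the pointwise bound. -/
theorem result (k : ℕ) (γ : Fin k ⊕ Fin k → ℝ) (_hγ : Function.Injective γ) (a : ℝ) (ha : 0 ≤ a) :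
    (∀ π : Equiv.Perm (Fin k ⊕ Fin k), PowerSaving γ a ↔ PowerSaving (fun i => γ (π i)) a) ∧
    (PowerSaving γ a → ∀ ε : ℝ, 0 < ε → ∃ C : ℝ, ∀ t : ℝ, 1 ≤ t →
      ∏ i, ‖riemannZeta (1 / 2 + I * (t + γ i))‖ ≤ C * t ^ (a + ε)) := by
  refine ⟨fun π => ⟨fun H => ?_, one_way ha π⟩, fun H ε hε => ?_⟩
  · apply one_way ha π⁻¹
    simpa using H
  · obtain ⟨C, hC⟩ := H (ε / 2) (by linarith)
    simp only [D_eq] at hC
    obtain ⟨C2, hC2⟩ := Pool.Agent.R747.SH.pointwise γ (b := a + ε / 2) (ε := ε / 2) (by linarith)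
      (by linarith) hC
    refine ⟨C2, fun t ht => ?_⟩
    have := hC2 t ht
    have e : a + ε / 2 + ε / 2 = a + ε := by ring
    rwa [e] at this

end

end Pool.Agent.Results.MP_fa2474_nt.RearrangedShifts
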