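import Pool.Agent.R304.TL.Ln5

/-!
The limit law of the Riemann zeta function to the right of the critical line, when the heights `t`
are weighted by `|ζ(1/2 + it)|²`; equivalently, asymptotic formulas for the moments of
`|ζ(1/2 + it)|²` mixed with `ζ` at fixed shifts `z_1, ..., z_m`, `1/2 < Re z_j < 1`.

For every continuous `Φ` of at most linear growth,
`1 / (T log T) ∫_0^T |ζ(1/2 + it)|² Φ(ζ(z_1 + it), ..., ζ(z_m + it)) dt` converges, and the limit
is the limit of the expectation of `Φ(∑_{n ≤ N} X(n) n^(-z_1), ...)` for `N → ∞`, where `X` is the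
random completely multiplicative function with independent values
`X(p) = (U_p + p^(-1/2)) / (1 + p^(-1/2) U_p)` at the primes, `U_p` uniform on the unit circle
(the law of `X(p)` is the Poisson kernel of the point `p^(-1/2)`). The limit is positive for `Φ ≥ 0`,
`Φ ≠ 0` and different `z_j`, and it is `ζ(z + 1/2)` for `m = 1`, `Φ(w) = w`.
-/

open Complex Filter Set Topology MeasureTheory

namespace Pool.Agent.Results.MP_fa2474_nt.SecondMomentLimitLaw

/-- the law of a sequence of independent variables with the uniform distribution on `(0, 1]` -/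
noncomputable def P : Measure (ℕ → ℝ) :=
  Measure.infinitePi fun _ : ℕ => (volume.restrict (Ioc 0 1) : Measure ℝ)

/-- `(U + p^(-1/2)) / (1 + p^(-1/2) U)` with `U = exp(2πiθ)` -/
noncomputable def Xp (p : ℕ) (θ : ℝ) : ℂ :=
  (exp ((2 * Real.pi * θ : ℝ) * I) + ((Real.sqrt p)⁻¹ : ℝ)) /
    (1 + ((Real.sqrt p)⁻¹ : ℝ) * exp ((2 * Real.pi * θ : ℝ) * I))

/-- the random completely multiplicative function: `X(n)` is the product of `X(p)^k` over the
prime powers `p^k` which divide `n` exactly -/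
noncomputable def X (n : ℕ) (ω : ℕ → ℝ) : ℂ := n.factorization.prod fun p k => Xp p (ω p) ^ k

/-- the integral of `|ζ(1/2 + it)|²` times `Φ(ζ(z_1 + it), ..., ζ(z_m + it))` over `(0, T]` -/
noncomputable def mixed {m : ℕ} (z : Fin m → ℂ) (Φ : (Fin m → ℂ) → ℂ) (T : ℝ) : ℂ :=
  ∫ t in (0 : ℝ)..T, (‖riemannZeta (1 / 2 + t * I)‖ ^ 2 : ℝ) * Φ fun j => riemannZeta (z j + t * I)

/-- the expectation of `Φ(∑_{n ≤ N} X(n) n^(-z_1), ..., ∑_{n ≤ N} X(n) n^(-z_m))` -/
noncomputable def expect {m : ℕ} (z : Fin m → ℂ) (Φ : (Fin m → ℂ) → ℂ) (N : ℕ) : ℂ :=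
  ∫ ω, Φ (fun j => ∑ n ∈ Finset.Icc 1 N, (n : ℂ) ^ (-z j) * X n ω) ∂P

lemma X_eq (n : ℕ) (ω : ℕ → ℝ) : X n ω = R304.TL.XM n ω := by
  unfold X R304.TL.XM
  refine Finsupp.prod_congr fun p _ => ?_
  unfold Xp R304.TL.Yr R304.TL.wu R304.TL.rp circleMap
  simp

lemma mixed_eq {m : ℕ} (z : Fin m → ℂ) (Φ : (Fin m → ℂ) → ℂ) {T : ℝ} (hT : 0 ≤ T) :
    mixed z Φ T = ∫ t in Ioc 0 T, (‖riemannZeta (H306R2.SM.cl t)‖ ^ 2 : ℝ) *
      Φ (R304.TL.Zv z t) := by
  unfold mixed
  rw [intervalIntegral.integral_of_le hT]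
  refine integral_congr_ae (Eventually.of_forall fun t => ?_)
  have e : H306R2.SM.cl t = 1 / 2 + t * I := by
    unfold H306R2.SM.cl
    push_cast
    ring
  simp only [e]
  rfl

lemma expect_eq {m : ℕ} (z : Fin m → ℂ) (Φ : (Fin m → ℂ) → ℂ) (N : ℕ) :
    expect z Φ N = ∫ ω, Φ (R304.TL.DX R304.TL.XM z N ω) ∂(R304.TL.PP) := by
  unfold expect R304.TL.DX R304.TL.c1
  simp_rw [X_eq]
  rfl

theorem result :
    -- the limit law
    (∀ (m : ℕ) (z : Fin m → ℂ), (∀ j, 1 / 2 < (z j).re ∧ (z j).re < 1) →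
      ∀ Φ : (Fin m → ℂ) → ℂ, Continuous Φ → (∃ C : ℝ, ∀ w, ‖Φ w‖ ≤ C * (1 + ‖w‖)) →
      ∃ M : ℂ, Tendsto (fun T : ℝ => mixed z Φ T / (T * Real.log T : ℝ)) atTop (𝓝 M) ∧
        Tendsto (expect z Φ) atTop (𝓝 M) ∧
        -- positivity
        (Function.Injective z → (∀ w, (Φ w).im = 0 ∧ 0 ≤ (Φ w).re) → (∃ w, Φ w ≠ 0) →
          M.im = 0 ∧ 0 < M.re)) ∧
    -- an explicit value
    (∀ z : ℂ, 1 / 2 < z.re → z.re < 1 →
      Tendsto (fun T : ℝ => mixed (fun _ : Fin 1 => z) (fun w => w 0) T / (T * Real.log T : ℝ))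
        atTop (𝓝 (riemannZeta (z + 1 / 2)))) := by
  refine ⟨?_, ?_⟩
  · intro m z hz Φ hΦ ⟨C, hC⟩
    obtain ⟨M, hM1, hM2⟩ := R304.TL.complex_case hz hΦ hC
    have h1 : Tendsto (fun T : ℝ => mixed z Φ T / (T * Real.log T : ℝ)) atTop (𝓝 M) := by
      refine hM1.congr' ?_
      filter_upwards [eventually_ge_atTop (0 : ℝ)] with T hT
      rw [mixed_eq z Φ hT]
    have h2 : Tendsto (expect z Φ) atTop (𝓝 M) := by
      refine hM2.congr fun N => ?_
      rw [expect_eq]
    refine ⟨M, h1, h2, fun hinj hpos hne => ?_⟩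
    set Φr : (Fin m → ℂ) → ℝ := fun w => (Φ w).re with hΦr
    have hΦrc : Continuous Φr := Complex.continuous_re.comp hΦ
    have hΦe : ∀ w, Φ w = (Φr w : ℂ) := fun w => by
      apply Complex.ext <;> simp [hΦr, (hpos w).1]
    have hne' : ∃ w, Φr w ≠ 0 := by
      obtain ⟨w, hw⟩ := hne
      refine ⟨w, fun h => hw ?_⟩
      rw [hΦe, h]; simp
    obtain ⟨Mr, hMr, -⟩ := R304.TL.real_case hz hΦrc (fun w => (hpos w).2) (C := C) (fun w =>
      (le_abs_self _).trans ((Complex.abs_re_le_norm _).trans (hC w)))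
    have hp := R304.TL.positive hz hinj hΦrc (fun w => (hpos w).2) hne' hMr
    have hMe : M = (Mr : ℂ) := by
      refine tendsto_nhds_unique hM1 ?_
      have h3 := (Complex.continuous_ofReal.tendsto Mr).comp hMr
      refine h3.congr fun T => ?_
      simp only [Function.comp]
      rw [Complex.ofReal_div, ← integral_complex_ofReal]
      congr 1
      refine integral_congr_ae (Eventually.of_forall fun t => ?_)
      simp only
      rw [hΦe]
      push_cast
      ring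
    rw [hMe]
    exact ⟨Complex.ofReal_im _, by rw [Complex.ofReal_re]; exact hp⟩
  · intro z h1 h2
    have hz : ∀ j : Fin 1, 1 / 2 < ((fun _ : Fin 1 => z) j).re ∧
      ((fun _ : Fin 1 => z) j).re < 1 := fun _ => ⟨h1, h2⟩
    obtain ⟨M, hM1, hM2⟩ := R304.TL.complex_case hz (Φ := fun w => w 0) (continuous_apply 0)
      (C := 1) (fun w => by
        have := norm_le_pi_norm w 0
        linarith)
    have hMe : M = riemannZeta (z + 1 / 2) :=
      tendsto_nhds_unique hM2 (R304.TL.first_moment hz 0)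
    rw [← hMe]
    refine hM1.congr' ?_
    filter_upwards [eventually_ge_atTop (0 : ℝ)] with T hT
    rw [mixed_eq _ _ hT]

end Pool.Agent.Results.MP_fa2474_nt.SecondMomentLimitLaw
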