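import Pool.Agent.R461.HM.Seq
import Pool.Agent.R461.HM.AP

set_option autoImplicit false

/-!
# MP_fa2474_nt: the shifted moments along measures of heights and along vertical arithmetic progressions

For all `k` and all shifts `a, b ∈ ℝ^k` the mean of `Z_{a+u, b-u}(t)` over heights `t` distributed by an arbitrary probability
measure on `[T, 2T]` with small integrals of `(m/n)^(it)`, averaged over the common shift `u` with a weight `φ(u log T)`, `φ`
band-limited, is given with a power saving by the diagonal term (the term of `Q_k` without swaps). For almost every `h > 0`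
this applies to the arithmetic progressions of heights with spacing `h` and at least `T^κ` terms.
-/

namespace Pool.Agent.Results.MP_fa2474_nt.VerticalProgressions

open Complex MeasureTheory Filter Topology Set
open scoped ContDiff ENNReal
open Pool.Agent.R461.HM

noncomputable section

/-- the product `Z_{a,b}(t)` of the problem -/
def Z {k : ℕ} (a b : Fin k → ℝ) (t : ℝ) : ℂ :=
  ∏ j, riemannZeta (1 / 2 + I * (t + a j)) * riemannZeta (1 / 2 - I * (t + b j))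

/-- the divisor function `τ_l(n)` of the problem -/
def tau {k : ℕ} (l : Fin k → ℂ) (n : ℕ) : ℂ := ∑ f ∈ Nat.finMulAntidiag k n, ∏ j, (f j : ℂ) ^ (l j)

/-- `φ(v) = ∫ ψ(ξ) e^{iξv} dξ` -/
def phi (ψ : ℝ → ℂ) (v : ℝ) : ℂ := ∫ ξ : ℝ, ψ ξ * exp (I * ξ * v)

/-- the main term: the truncated Dirichlet series of `ζ_{(a,b)}` at `1/2` -/
def mainTerm {k : ℕ} (a b : Fin k → ℝ) (ψ : ℝ → ℂ) (T : ℝ) : ℂ :=
  2 * Real.pi / Real.log T * ∑' n : ℕ, tau (fun j => -(I * a j)) n * tau (fun j => I * b j) n / n *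
    ψ (2 * Real.log n / Real.log T)

lemma phi_eq (ψ : ℝ → ℂ) (v : ℝ) : phi ψ v = W182.KO.P ψ (v * I) := by
  unfold phi W182.KO.P
  congr 1; funext ξ
  congr 2
  ring

lemma Z_eq {k : ℕ} (a b : Fin k → ℝ) (u t : ℝ) : Z (fun j => a j + u) (fun j => b j - u) t =
    W182.KO.ZP a (1 / 2 + (u + t : ℝ) * I) * W182.KO.ZP (fun j => -b j) (1 / 2 + (u - t : ℝ) * I) := by
  unfold Z W182.KO.ZP
  rw [← Finset.prod_mul_distrib]
  refine Finset.prod_congr rfl fun j _ => ?_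
  congr 2
  · push_cast; ring
  · push_cast; ring

/-- Let `0 ≤ θ < θ'`, `ψ` smooth with compact support, vanishing above `2θ`, `a, b ∈ ℝ^k`. (1) For every `N` there are `C`,
`T₀` such that for `T ≥ T₀` and all probability measures `ν` of heights in `[T, 2T]` with parameter `δ` the weighted average
over `u` of the `ν`-mean of `Z_{a+u, b-u}` is the main term up to `C (δ T^θ' + T^(-N))`. (2) If `2 θ ≤ κ/10`, `κ > 0`, there is
`C` such that for almost every `h > 0` there is `T₀` with: for `T ≥ T₀` and all arithmetic progressions `x + j h`, `j < J`, in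
`[T, 2T]` with `J ≥ T^κ` terms the same holds for the mean over the progression, with error at most `C T^(-κ/40)`. -/
theorem result (k : ℕ) (a b : Fin k → ℝ) (θ : ℝ) (hθ : 0 ≤ θ) (ψ : ℝ → ℂ) (hψ : ContDiff ℝ ∞ ψ)
    (hc : HasCompactSupport ψ) (hs : ∀ ξ : ℝ, 2 * θ < ξ → ψ ξ = 0) :
    (∀ θ' : ℝ, θ < θ' → ∀ N : ℕ, ∃ C T₀ : ℝ, ∀ T : ℝ, T₀ ≤ T → ∀ (ν : Measure ℝ) (δ : ℝ), 0 ≤ δ →
      Heights T (T ^ (2 * θ)) δ ν →
      Integrable (fun u : ℝ => phi ψ (Real.log T * u) * ∫ t, Z (fun j => a j + u) (fun j => b j - u) t ∂ν) ∧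
      ‖(∫ u : ℝ, phi ψ (Real.log T * u) * ∫ t, Z (fun j => a j + u) (fun j => b j - u) t ∂ν) -
        mainTerm a b ψ T‖ ≤ C * (δ * T ^ θ' + (T ^ N)⁻¹)) ∧
    (∀ κ : ℝ, 0 < κ → 2 * θ ≤ κ / 10 → ∃ C : ℝ, ∀ᵐ h : ℝ, 0 < h → ∃ T₀ : ℝ, ∀ T : ℝ, T₀ ≤ T → ∀ J : ℕ, T ^ κ ≤ J →
      ∀ x : ℝ, T ≤ x → x + J * h ≤ 2 * T →
      ‖(∫ u : ℝ, phi ψ (Real.log T * u) *
        ((J : ℂ)⁻¹ * ∑ j ∈ Finset.range J, Z (fun i => a i + u) (fun i => b i - u) (x + j * h))) -
        mainTerm a b ψ T‖ ≤ C * T ^ (-(κ / 40))) := by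
  have main : ∀ θ' : ℝ, θ < θ' → ∀ N : ℕ, ∃ C T₀ : ℝ, 0 ≤ C ∧ Real.exp 1 ≤ T₀ ∧ ∀ T : ℝ, T₀ ≤ T →
      ∀ (ν : Measure ℝ) (δ : ℝ), 0 ≤ δ → Heights T (T ^ (2 * θ)) δ ν →
      Integrable (fun u : ℝ => phi ψ (Real.log T * u) * ∫ t, Z (fun j => a j + u) (fun j => b j - u) t ∂ν) ∧
      ‖(∫ u : ℝ, phi ψ (Real.log T * u) * ∫ t, Z (fun j => a j + u) (fun j => b j - u) t ∂ν) -
        mainTerm a b ψ T‖ ≤ C * (δ * T ^ θ' + (T ^ N)⁻¹) := by
    intro θ' hθ' N
    obtain ⟨C, T₀, hC, hT₀, h⟩ := meas (ξ1 := 2 * θ) (ψ := ψ) ⟨hψ, hc, hs⟩ (by linarith) (θ := θ') (by linarith)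
      a (fun j => -b j) N
    refine ⟨C, T₀, hC, hT₀, fun T hT ν δ hδ hν => ?_⟩
    have hTe := hT₀.trans hT
    have hT0 : 0 < T := (Real.exp_pos 1).trans_le hTe
    obtain ⟨h1, h2⟩ := h T hT ν hν.prob hν.supp δ hδ (hν.toSmall hT0)
    have e1 : (fun u : ℝ => phi ψ (Real.log T * u) * ∫ t, Z (fun j => a j + u) (fun j => b j - u) t ∂ν) =
        (fun y : ℝ => W182.KO.P ψ (Real.log T * y * I) * (∫ t, W182.KO.ZP a (1 / 2 + (y + t : ℝ) * I) *
          W182.KO.ZP (fun j => -b j) (1 / 2 + (y - t : ℝ) * I) ∂ν)) := by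
      funext u
      simp only [Z_eq]
      rw [phi_eq]
      congr 2
      push_cast; ring
    have e2 : mainTerm a b ψ T = ((2 * Real.pi / Real.log T : ℝ) : ℂ) *
          ∑' n : ℕ, W182.KO.tau (fun j => -(a j * I)) n * W182.KO.tau (fun j => -(((-b j : ℝ) : ℂ) * I)) n / n *
            ψ (2 * Real.log n / Real.log T) := by
      unfold mainTerm
      have e3 : (fun j : Fin k => -(I * (a j : ℂ))) = fun j => -((a j : ℂ) * I) := by funext j; ring
      have e4 : (fun j : Fin k => I * (b j : ℂ)) = fun j => -(((-b j : ℝ) : ℂ) * I) := by funext j; push_cast; ring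
      rw [e3, e4]
      push_cast
      rfl
    rw [e1, e2]
    exact ⟨h1, h2⟩
  refine ⟨fun θ' hθ' N => ?_, fun κ hκ hκθ => ?_⟩
  · obtain ⟨C, T₀, -, -, h⟩ := main θ' hθ' N
    exact ⟨C, T₀, h⟩
  obtain ⟨C, T₀, hC, hT₀, h⟩ := main (3 * κ / 40) (by linarith) (⌈κ⌉₊ + 1)
  refine ⟨2 * C, ?_⟩
  filter_upwards [ap_small hκ] with d hd hpos
  obtain ⟨T₁, hT₁, hsm⟩ := hd hpos
  refine ⟨max T₀ T₁, fun T hT J hJ x hx1 hx2 => ?_⟩
  have hTa := (le_max_left _ _).trans hT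
  have hTb := (le_max_right _ _).trans hT
  have hT1 : 1 ≤ T := hT₁.trans hTb
  have hT0 : 0 < T := by linarith
  have hJ1 : 1 ≤ J := by
    have h1 : (1:ℝ) ≤ J := (Real.one_le_rpow hT1 hκ.le).trans hJ
    exact_mod_cast h1
  have hν : Heights T (T ^ (2 * θ)) (T ^ (-(κ / 10))) (unif J (fun j => x + j * d)) := by
    refine unif_heights hJ1 (fun j hj => ?_) (fun m n hm hn hmn hY => ?_)
    · have h2 : (j:ℝ) ≤ J := by exact_mod_cast hj.le
      constructor
      · have : 0 ≤ (j:ℝ) * d := by positivity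
        linarith
      · have : (j:ℝ) * d ≤ J * d := by gcongr
        linarith
    · refine hsm T hTb J hJ x m n hm hn hmn (hY.trans ?_)
      exact Real.rpow_le_rpow_of_exponent_le hT1 (by linarith)
  obtain ⟨-, h3⟩ := h T hTa _ _ (by positivity) hν
  simp only [integral_unif] at h3
  refine h3.trans ?_
  have e5 : T ^ (-(κ / 10)) * T ^ (3 * κ / 40) = T ^ (-(κ / 40)) := by
    rw [← Real.rpow_add hT0]; congr 1; ring
  have e6 : (T ^ (⌈κ⌉₊ + 1))⁻¹ ≤ T ^ (-(κ / 40)) := by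
    rw [Real.rpow_neg hT0.le]
    have e7 : T ^ (κ / 40) ≤ T ^ (⌈κ⌉₊ + 1) := by
      rw [← Real.rpow_natCast]
      refine Real.rpow_le_rpow_of_exponent_le hT1 ?_
      have := Nat.le_ceil κ
      push_cast
      linarith
    exact inv_anti₀ (by positivity) e7
  rw [e5]
  nlinarith

end

end Pool.Agent.Results.MP_fa2474_nt.VerticalProgressions
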